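import Pool.Agent.Work.MP_302c96_al.Str.Dec

set_option autoImplicit false

/-!
Groups `G = A B A` with conjugate infinite cyclic subgroups `A`, `B`: the elementary amenable ones,
and those all of whose infinite finitely generated subgroups virtually map onto the integers, are
abelian-by-finite, and soluble if `A ∩ B = 1`.
-/

namespace Pool.Agent.Results.MP_302c96_al.ElementaryAmenable

open Pool.Agent.Work.MP_302c96_al
open Pool.Agent.Work.MP_302c96_al.Mal
open Pool.Agent.Work.MP_302c96_al.Str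

universe u

/-- Let `G = A B A` with `A` an infinite cyclic subgroup and `B = x A x⁻¹`. If `G` is elementary
amenable, or if every infinite finitely generated subgroup of `G` has a subgroup of finite index
with a nontrivial homomorphism to `ℤ`, then `G` has an abelian normal subgroup of finite index, and
`G` is soluble in the case `A ∩ B = 1`. -/
theorem result {G : Type u} [Group G] (A B : Subgroup G) (hcyc : IsCyclic A) (hinf : Infinite A)
    (hconj : ∃ x : G, ∀ g : G, g ∈ B ↔ ∃ c ∈ A, g = x * c * x⁻¹)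
    (hABA : ∀ g : G, ∃ c ∈ A, ∃ d ∈ B, ∃ c' ∈ A, g = c * d * c')
    (hcls : ElemAmen G ∨ ∀ H : Subgroup G, H.FG → Infinite H → VirtIndic H) :
    (∃ K : Subgroup G, K.Normal ∧ K.FiniteIndex ∧ ∀ k ∈ K, ∀ l ∈ K, k * l = l * k) ∧
    ((∀ c ∈ A, c ∈ B → c = 1) → Group.IsSolvable G) := by
  obtain ⟨x, hx⟩ := hconj
  obtain ⟨a, ha⟩ := (Subgroup.isCyclic_iff_exists_zpowers_eq_top A).1 hcyc
  have hA : ∀ g : G, g ∈ A ↔ ∃ n : ℤ, g = a ^ n := by
    intro g
    rw [← ha, Subgroup.mem_zpowers_iff]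
    exact ⟨fun ⟨n, hn⟩ => ⟨n, hn.symm⟩, fun ⟨n, hn⟩ => ⟨n, hn.symm⟩⟩
  have haA : a ∈ A := (hA a).2 ⟨1, (zpow_one a).symm⟩
  have hcov : Cov a x := by
    intro g
    obtain ⟨c, hc, d, hd, c', hc', rfl⟩ := hABA g
    obtain ⟨i, rfl⟩ := (hA c).1 hc
    obtain ⟨e, he, rfl⟩ := (hx d).1 hd
    obtain ⟨j, rfl⟩ := (hA e).1 he
    obtain ⟨k, rfl⟩ := (hA c').1 hc'
    exact ⟨i, j, k, rfl⟩
  have hpow : Inf a := by
    intro n hn
    by_contra h0
    have hfin : IsOfFinOrder a := isOfFinOrder_iff_zpow_eq_one.2 ⟨n, h0, hn⟩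
    have : Finite (Subgroup.zpowers a) := finite_zpowers.2 hfin
    rw [ha] at this
    exact not_finite A
  have hB : ∀ g : G, g ∈ B ↔ ∃ n : ℤ, g = (x * a * x⁻¹) ^ n := by
    intro g
    rw [hx]
    constructor
    · rintro ⟨c, hc, rfl⟩
      obtain ⟨n, rfl⟩ := (hA c).1 hc
      exact ⟨n, by rw [conj_zpow]⟩
    · rintro ⟨n, rfl⟩
      exact ⟨a ^ n, (hA _).2 ⟨n, rfl⟩, by rw [conj_zpow]⟩
  have hD : Aba a (x * a * x⁻¹) x := by
    refine ⟨rfl, fun g => ?_, hpow⟩
    obtain ⟨i, j, k, h⟩ := hcov g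
    exact ⟨i, j, k, by rw [h, conj_zpow]⟩
  -- either `G` is the open case, or it is abelian-by-finite and soluble if `A ∩ B = 1`
  have hdich : Ctx a x ∨
      ((∃ K : Subgroup G, K.Normal ∧ K.FiniteIndex ∧ ∀ k ∈ K, ∀ l ∈ K, k * l = l * k) ∧
      ((∀ c ∈ A, c ∈ B → c = 1) → Group.IsSolvable G)) := by
    by_cases hxa : ∃ k : ℤ, x = a ^ k
    · right
      have hall : ∀ g : G, ∃ n : ℤ, g = a ^ n := by
        intro g
        obtain ⟨k, hk⟩ := hxa
        obtain ⟨i, j, l, hg⟩ := hcov g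
        refine ⟨i + j + l, ?_⟩
        rw [hg, hk, zpow_add, zpow_add]
        have : a ^ k * a ^ j * (a ^ k)⁻¹ = a ^ j := by
          rw [← zpow_add, add_comm, zpow_add, mul_inv_cancel_right]
        rw [this]
      have hcomm : ∀ k l : G, k * l = l * k := by
        intro k l
        obtain ⟨i, rfl⟩ := hall k
        obtain ⟨j, rfl⟩ := hall l
        rw [← zpow_add, ← zpow_add, add_comm]
      refine ⟨⟨⊤, inferInstance, inferInstance, fun k _ l _ => hcomm k l⟩, fun _ => ?_⟩
      let _ : CommGroup G := { (inferInstance : Group G) with mul_comm := hcomm }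
      infer_instance
    · by_cases hmal : Maln a
      · exact Or.inl ⟨hcov, hpow, hmal, hxa⟩
      · right
        unfold Maln at hmal
        push Not at hmal
        obtain ⟨g, m, n, hm, hgn, hg⟩ := hmal
        have hg' : g ∉ Subgroup.zpowers a := by
          rintro ⟨k, hk⟩
          exact hg k hk.symm
        obtain ⟨e, he, hce⟩ := hD.commuting hg' hm hgn
        obtain ⟨E, hE⟩ := hD.unif he hce
        by_cases hAB : ∀ i j : ℤ, a ^ i = (x * a * x⁻¹) ^ j → i = 0
        · have hI : Ind a (x * a * x⁻¹) x E := ⟨hE, hAB⟩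
          exact ⟨⟨_, hI.normal, hI.finiteIndex, hI.comm_K⟩, fun _ => hI.solvable⟩
        · push Not at hAB
          obtain ⟨i, j, hij, hi⟩ := hAB
          refine ⟨⟨Subgroup.center G, inferInstance, hD.centre_fin hij hi,
            fun k hk l _ => (Subgroup.mem_center_iff.1 hk l).symm⟩, fun h => ?_⟩
          exact absurd (hpow i (h (a ^ i) ((hA _).2 ⟨i, rfl⟩) ((hB _).2 ⟨j, hij⟩))) hi
  rcases hdich with h | h
  · exfalso
    rcases hcls with hE | hV
    · exact not_eg h hE
    · obtain ⟨H, _, h1, h2, h3⟩ := ex_not_vi h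
      exact h3 (hV H h1 h2)
  · exact h

end Pool.Agent.Results.MP_302c96_al.ElementaryAmenable
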