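import Pool.Agent.Work.MP_302c96_al.Str.Simple

set_option autoImplicit false

/-!
Groups `G = A B A` with conjugate infinite cyclic subgroups `A`, `B` that are not abelian-by-finite:
each is residually finite or has a finitely generated infinite simple finite residual.
-/

open scoped commutatorElement

namespace Pool.Agent.Results.MP_302c96_al.FiniteResidual

open Pool.Agent.Work.MP_302c96_al
open Pool.Agent.Work.MP_302c96_al.Mal
open Pool.Agent.Work.MP_302c96_al.Str

universe u

/-- Let `G = A B A` with `A` an infinite cyclic subgroup and `B = x A x⁻¹`, and suppose that `G` has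
no abelian normal subgroup of finite index.
(a) If some nontrivial normal subgroup of `G` has infinite index, then the commutator subgroup `G'`
is finitely generated, `G` is the semidirect product of `G'` and `A`, and every nontrivial normal
subgroup of `G` meets `G'` in a subgroup of finite index of `G'`.
(b) Either `G` is residually finite, or the intersection `D` of all subgroups of finite index of `G`
is a finitely generated infinite simple group, `D` is contained in every nontrivial normal subgroup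
of `G`, and the centre of `G / D` has finite index.
(c) If every nontrivial finitely generated subgroup of `G` has a proper subgroup of finite index
(`G` is locally graded), then `G` is residually finite. -/
theorem result {G : Type u} [Group G] (A B : Subgroup G) (hcyc : IsCyclic A) (hinf : Infinite A)
    (hconj : ∃ x : G, ∀ g : G, g ∈ B ↔ ∃ c ∈ A, g = x * c * x⁻¹)
    (hABA : ∀ g : G, ∃ c ∈ A, ∃ d ∈ B, ∃ c' ∈ A, g = c * d * c')
    (hnot : ¬ ∃ K : Subgroup G, K.Normal ∧ K.FiniteIndex ∧ ∀ k ∈ K, ∀ l ∈ K, k * l = l * k) :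
    (∀ N : Subgroup G, N.Normal → N ≠ ⊥ → ¬ N.FiniteIndex →
      (commutator G).FG ∧ (∀ c ∈ A, c ∈ commutator G → c = 1) ∧
      (∀ g : G, ∃ n ∈ commutator G, ∃ c ∈ A, g = n * c) ∧
      ∀ M : Subgroup G, M.Normal → M ≠ ⊥ → M.relIndex (commutator G) ≠ 0) ∧
    (Group.ResiduallyFinite G ∨
      (IsSimpleGroup (sInf {H : Subgroup G | H.FiniteIndex} : Subgroup G) ∧
        Infinite (sInf {H : Subgroup G | H.FiniteIndex} : Subgroup G) ∧
        (sInf {H : Subgroup G | H.FiniteIndex} : Subgroup G).FG ∧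
        (∀ M : Subgroup G, M.Normal → M ≠ ⊥ →
          (sInf {H : Subgroup G | H.FiniteIndex} : Subgroup G) ≤ M) ∧
        ∃ Z : Subgroup G, Z.FiniteIndex ∧ ∀ z ∈ Z, ∀ g : G,
          ⁅z, g⁆ ∈ (sInf {H : Subgroup G | H.FiniteIndex} : Subgroup G))) ∧
    ((∀ H : Subgroup G, H.FG → H ≠ ⊥ → ∃ K : Subgroup H, K.FiniteIndex ∧ K ≠ ⊤) →
      Group.ResiduallyFinite G) := by
  obtain ⟨x, hx⟩ := hconj
  obtain ⟨a, ha⟩ := (Subgroup.isCyclic_iff_exists_zpowers_eq_top A).1 hcyc
  have hA : ∀ g : G, g ∈ A ↔ ∃ n : ℤ, g = a ^ n := by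
    intro g
    rw [← ha, Subgroup.mem_zpowers_iff]
    exact ⟨fun ⟨n, hn⟩ => ⟨n, hn.symm⟩, fun ⟨n, hn⟩ => ⟨n, hn.symm⟩⟩
  have haA : a ∈ A := (hA a).2 ⟨1, (zpow_one a).symm⟩
  have hcov : Cov a x := by
    intro g
    obtain ⟨c, hc, d, hd, c', hc', rfl⟩ := hABA g
    obtain ⟨i, rfl⟩ := (hA c).1 hc
    obtain ⟨e, he, rfl⟩ := (hx d).1 hd
    obtain ⟨j, rfl⟩ := (hA e).1 he
    obtain ⟨k, rfl⟩ := (hA c').1 hc'
    exact ⟨i, j, k, rfl⟩
  have hpow : Inf a := by
    intro n hn
    by_contra h0
    have hfin : IsOfFinOrder a := isOfFinOrder_iff_zpow_eq_one.2 ⟨n, h0, hn⟩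
    have : Finite (Subgroup.zpowers a) := finite_zpowers.2 hfin
    rw [ha] at this
    exact not_finite A
  have hB : ∀ g : G, g ∈ B ↔ ∃ n : ℤ, g = (x * a * x⁻¹) ^ n := by
    intro g
    rw [hx]
    constructor
    · rintro ⟨c, hc, rfl⟩
      obtain ⟨n, rfl⟩ := (hA c).1 hc
      exact ⟨n, by rw [conj_zpow]⟩
    · rintro ⟨n, rfl⟩
      exact ⟨a ^ n, (hA _).2 ⟨n, rfl⟩, by rw [conj_zpow]⟩
  have hD : Aba a (x * a * x⁻¹) x := by
    refine ⟨rfl, fun g => ?_, hpow⟩
    obtain ⟨i, j, k, h⟩ := hcov g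
    exact ⟨i, j, k, by rw [h, conj_zpow]⟩
  -- either `G` is the open case, or it is abelian-by-finite and soluble if `A ∩ B = 1`
  have hdich : Ctx a x ∨
      ((∃ K : Subgroup G, K.Normal ∧ K.FiniteIndex ∧ ∀ k ∈ K, ∀ l ∈ K, k * l = l * k) ∧
      ((∀ c ∈ A, c ∈ B → c = 1) → Group.IsSolvable G)) := by
    by_cases hxa : ∃ k : ℤ, x = a ^ k
    · right
      have hall : ∀ g : G, ∃ n : ℤ, g = a ^ n := by
        intro g
        obtain ⟨k, hk⟩ := hxa
        obtain ⟨i, j, l, hg⟩ := hcov g
        refine ⟨i + j + l, ?_⟩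
        rw [hg, hk, zpow_add, zpow_add]
        have : a ^ k * a ^ j * (a ^ k)⁻¹ = a ^ j := by
          rw [← zpow_add, add_comm, zpow_add, mul_inv_cancel_right]
        rw [this]
      have hcomm : ∀ k l : G, k * l = l * k := by
        intro k l
        obtain ⟨i, rfl⟩ := hall k
        obtain ⟨j, rfl⟩ := hall l
        rw [← zpow_add, ← zpow_add, add_comm]
      refine ⟨⟨⊤, inferInstance, inferInstance, fun k _ l _ => hcomm k l⟩, fun _ => ?_⟩
      let _ : CommGroup G := { (inferInstance : Group G) with mul_comm := hcomm }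
      infer_instance
    · by_cases hmal : Maln a
      · exact Or.inl ⟨hcov, hpow, hmal, hxa⟩
      · right
        unfold Maln at hmal
        push Not at hmal
        obtain ⟨g, m, n, hm, hgn, hg⟩ := hmal
        have hg' : g ∉ Subgroup.zpowers a := by
          rintro ⟨k, hk⟩
          exact hg k hk.symm
        obtain ⟨e, he, hce⟩ := hD.commuting hg' hm hgn
        obtain ⟨E, hE⟩ := hD.unif he hce
        by_cases hAB : ∀ i j : ℤ, a ^ i = (x * a * x⁻¹) ^ j → i = 0
        · have hI : Ind a (x * a * x⁻¹) x E := ⟨hE, hAB⟩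
          exact ⟨⟨_, hI.normal, hI.finiteIndex, hI.comm_K⟩, fun _ => hI.solvable⟩
        · push Not at hAB
          obtain ⟨i, j, hij, hi⟩ := hAB
          refine ⟨⟨Subgroup.center G, inferInstance, hD.centre_fin hij hi,
            fun k hk l _ => (Subgroup.mem_center_iff.1 hk l).symm⟩, fun h => ?_⟩
          exact absurd (hpow i (h (a ^ i) ((hA _).2 ⟨i, rfl⟩) ((hB _).2 ⟨j, hij⟩))) hi
  have hRF : Rs G = ⊥ → Group.ResiduallyFinite G := by
    intro h
    rw [Group.residuallyFinite_iff_forall_finiteIndex]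
    intro g hg
    have : g ∈ Rs G := mem_Rs.2 fun H hH => hg H
    rwa [h, Subgroup.mem_bot] at this
  have h : Ctx a x := by
    rcases hdich with h | h
    · exact h
    · exact absurd h.1 hnot
  refine ⟨?_, ?_, ?_⟩
  · intro N hN hN1 hNi
    have hi : Infinite (G ⧸ N) := by
      by_contra hfin
      have := not_infinite_iff_finite.1 hfin
      exact hNi Subgroup.finiteIndex_of_finite_quotient
    have hAb := inf_ab h N hN1 hi
    refine ⟨comm_fg h hAb, ?_, ?_, ?_⟩
    · intro c hc hc2
      obtain ⟨n, rfl⟩ := (hA c).1 hc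
      rw [hAb n hc2, zpow_zero]
    · intro g
      obtain ⟨k, c, hc, hg⟩ := form_comm h g
      exact ⟨c, hc, a ^ k, (hA _).2 ⟨k, rfl⟩, hg⟩
    · intro M hM hM1
      exact rel h M hM1
  · by_cases hR : Rs G = ⊥
    · exact Or.inl (hRF hR)
    · right
      obtain ⟨L, hL⟩ := exists_amb h hR
      obtain ⟨hs1, hs2⟩ := Rs_simple h hR
      refine ⟨hs1, hs2, (Group.fg_iff_subgroup_fg _).1 (Rs_fg hL), ?_, Rs_central h hR⟩
      intro M hM hM1
      exact Rs_le_normal h hR M hM1
  · intro hlg
    by_contra hnRF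
    have hR : Rs G ≠ ⊥ := fun h0 => hnRF (hRF h0)
    obtain ⟨L, hL⟩ := exists_amb h hR
    obtain ⟨K, hK, hK1⟩ := hlg (Rs G) ((Group.fg_iff_subgroup_fg _).1 (Rs_fg hL)) hR
    apply hK1
    have h1 : (K.map (Rs G).subtype).subgroupOf (Rs G) = K := by
      ext d
      rw [Subgroup.mem_subgroupOf]
      exact Subgroup.mem_map_iff_mem (f := (Rs G).subtype) (Rs G).subtype_injective
    have h2 := Rs_no_fin hL (K.map (Rs G).subtype) (Subgroup.map_subtype_le K) (by
      show ((K.map (Rs G).subtype).subgroupOf (Rs G)).index ≠ 0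
      rw [h1]
      exact hK.index_ne_zero)
    rw [eq_top_iff]
    intro d _
    have h3 : (d : G) ∈ K.map (Rs G).subtype := by
      rw [h2]
      exact d.2
    exact (Subgroup.mem_map_iff_mem (f := (Rs G).subtype) (Rs G).subtype_injective).1 h3

end Pool.Agent.Results.MP_302c96_al.FiniteResidual
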