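import Pool.Agent.Work.MP_302c96_al.Solv

set_option autoImplicit false

/-!
`G = A B A` with conjugate infinite cyclic subgroups `A`, `B`: if `A` is not malnormal, then `G`
is abelian-by-finite, and it is soluble when `A` and `B` meet trivially.
-/

namespace Pool.Agent.Results.MP_302c96_al.NonMalnormal

open Pool.Agent.Work.MP_302c96_al

/-- Let `G = A B A`, where `A ≠ G` is an infinite cyclic subgroup and `B = x A x⁻¹`. Then `G` has
an abelian normal subgroup of finite index if and only if `A` is not malnormal, that is,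
`A ∩ g A g⁻¹ ≠ 1` for some `g` outside `A`; and if this holds and `A ∩ B = 1`, then `G` is
soluble. -/
theorem result {G : Type*} [Group G] (A B : Subgroup G) (hcyc : IsCyclic A) (hinf : Infinite A)
    (hconj : ∃ x : G, ∀ g : G, g ∈ B ↔ ∃ c ∈ A, g = x * c * x⁻¹)
    (hABA : ∀ g : G, ∃ c ∈ A, ∃ d ∈ B, ∃ c' ∈ A, g = c * d * c')
    (hne : ∃ g : G, g ∉ A) :
    ((∃ g : G, g ∉ A ∧ ∃ c ∈ A, c ≠ 1 ∧ g * c * g⁻¹ ∈ A) ↔
      ∃ K : Subgroup G, K.Normal ∧ K.FiniteIndex ∧ ∀ k ∈ K, ∀ l ∈ K, k * l = l * k) ∧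
    ((∃ g : G, g ∉ A ∧ ∃ c ∈ A, c ≠ 1 ∧ g * c * g⁻¹ ∈ A) →
      (∀ c ∈ A, c ∈ B → c = 1) → Group.IsSolvable G) := by
  obtain ⟨x, hx⟩ := hconj
  obtain ⟨a, ha⟩ := (Subgroup.isCyclic_iff_exists_zpowers_eq_top A).1 hcyc
  have hA : ∀ g : G, g ∈ A ↔ ∃ n : ℤ, g = a ^ n := by
    intro g
    rw [← ha, Subgroup.mem_zpowers_iff]
    exact ⟨fun ⟨n, hn⟩ => ⟨n, hn.symm⟩, fun ⟨n, hn⟩ => ⟨n, hn.symm⟩⟩
  have haA : a ∈ A := (hA a).2 ⟨1, (zpow_one a).symm⟩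
  have hB : ∀ g : G, g ∈ B ↔ ∃ n : ℤ, g = (x * a * x⁻¹) ^ n := by
    intro g
    rw [hx]
    constructor
    · rintro ⟨c, hc, rfl⟩
      obtain ⟨n, rfl⟩ := (hA c).1 hc
      exact ⟨n, by rw [conj_zpow]⟩
    · rintro ⟨n, rfl⟩
      exact ⟨a ^ n, (hA _).2 ⟨n, rfl⟩, by rw [conj_zpow]⟩
  have hpow : ∀ n : ℤ, a ^ n = 1 → n = 0 := by
    intro n hn
    by_contra h0
    have hfin : IsOfFinOrder a := isOfFinOrder_iff_zpow_eq_one.2 ⟨n, h0, hn⟩
    have : Finite (Subgroup.zpowers a) := finite_zpowers.2 hfin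
    rw [ha] at this
    exact not_finite A
  have hD : Aba a (x * a * x⁻¹) x := by
    refine ⟨rfl, fun g => ?_, hpow⟩
    obtain ⟨c, hc, d, hd, c', hc', rfl⟩ := hABA g
    obtain ⟨i, rfl⟩ := (hA c).1 hc
    obtain ⟨j, rfl⟩ := (hB d).1 hd
    obtain ⟨k, rfl⟩ := (hA c').1 hc'
    exact ⟨i, j, k, rfl⟩
  -- the data of a non-malnormal `A`
  have hmain : (∃ g : G, g ∉ A ∧ ∃ c ∈ A, c ≠ 1 ∧ g * c * g⁻¹ ∈ A) →
      ∃ E : ℕ, Unif a (x * a * x⁻¹) x E := by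
    rintro ⟨g, hg, c, hc, hc1, hgc⟩
    obtain ⟨m, rfl⟩ := (hA c).1 hc
    obtain ⟨n, hn⟩ := (hA _).1 hgc
    have hm : m ≠ 0 := by
      rintro rfl
      exact hc1 (zpow_zero a)
    rw [← ha] at hg
    obtain ⟨e, he, hce⟩ := hD.commuting hg hm hn
    exact hD.unif he hce
  refine ⟨⟨fun h => ?_, ?_⟩, fun h hAB => ?_⟩
  · by_cases hAB : ∀ i j : ℤ, a ^ i = (x * a * x⁻¹) ^ j → i = 0
    · obtain ⟨E, hE⟩ := hmain h
      have hI : Ind a (x * a * x⁻¹) x E := ⟨hE, hAB⟩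
      exact ⟨_, hI.normal, hI.finiteIndex, hI.comm_K⟩
    · push Not at hAB
      obtain ⟨i, j, hij, hi⟩ := hAB
      exact ⟨Subgroup.center G, inferInstance, hD.centre_fin hij hi,
        fun k hk l _ => (Subgroup.mem_center_iff.1 hk l).symm⟩
  · rintro ⟨K, hK, hKfin, hKc⟩
    have hn0 : K.index ≠ 0 := hKfin.index_ne_zero
    have hm : a ^ K.index ∈ K := K.pow_index_mem a
    have hmA : a ^ K.index ∈ A := A.pow_mem haA _
    have hm1 : a ^ K.index ≠ 1 := by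
      intro h1
      rw [← zpow_natCast] at h1
      exact hn0 (by exact_mod_cast hpow _ h1)
    by_cases hKA : ∀ k ∈ K, k ∈ A
    · obtain ⟨g, hg⟩ := hne
      exact ⟨g, hg, _, hmA, hm1, hKA _ (hK.conj_mem _ hm g)⟩
    · push Not at hKA
      obtain ⟨k, hk, hkA⟩ := hKA
      refine ⟨k, hkA, _, hmA, hm1, ?_⟩
      rw [hKc k hk _ hm, mul_assoc, mul_inv_cancel, mul_one]
      exact hmA
  · obtain ⟨E, hE⟩ := hmain h
    have hI : Ind a (x * a * x⁻¹) x E := by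
      refine ⟨hE, fun i j hij => ?_⟩
      have h1 := hAB (a ^ i) ((hA _).2 ⟨i, rfl⟩) ((hB _).2 ⟨j, hij⟩)
      exact hpow i h1
    exact hI.solvable

end Pool.Agent.Results.MP_302c96_al.NonMalnormal
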