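import Pool.Agent.Work.MP_302c96_al.Mal.All

set_option autoImplicit false

/-!
Groups `G = A B A` with conjugate cyclic subgroups `A`, `B`: the soluble ones are
abelian-by-finite; proper quotients are centre-by-finite; if `A` is infinite and malnormal (the
open case of the question), every soluble subgroup normalised by `A` lies in `A`.
-/

namespace Pool.Agent.Results.MP_302c96_al.SolubleStructure

open Pool.Agent.Work.MP_302c96_al
open Pool.Agent.Work.MP_302c96_al.Mal

/-- Let `G = A B A` with `A` cyclic and `B = x A x⁻¹`. (1) If `G` is soluble, then `G` has an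
abelian normal subgroup of finite index. (2) If `N` is a nontrivial normal subgroup of `G`, then
the centre of `G / N` has finite index in `G / N`, and the commutator subgroup of `G / N` is
finite. (3) If `A` is infinite and malnormal, then every soluble subgroup of `G` that is normalised
by `A` is contained in `A`. (4) If `A` is infinite, malnormal and different from `G`, then `G` is
not soluble, and its only soluble normal subgroup is the trivial one. -/
theorem result {G : Type*} [Group G] (A B : Subgroup G) (hcyc : IsCyclic A)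
    (hconj : ∃ x : G, ∀ g : G, g ∈ B ↔ ∃ c ∈ A, g = x * c * x⁻¹)
    (hABA : ∀ g : G, ∃ c ∈ A, ∃ d ∈ B, ∃ c' ∈ A, g = c * d * c') :
    (Group.IsSolvable G →
      ∃ K : Subgroup G, K.Normal ∧ K.FiniteIndex ∧ ∀ k ∈ K, ∀ l ∈ K, k * l = l * k) ∧
    (∀ (N : Subgroup G) [N.Normal], N ≠ ⊥ →
      (Subgroup.center (G ⧸ N)).FiniteIndex ∧ Finite (commutator (G ⧸ N))) ∧
    (Infinite A → (∀ g : G, g ∉ A → ∀ c ∈ A, c ≠ 1 → g * c * g⁻¹ ∉ A) →
      ∀ S : Subgroup G, Group.IsSolvable S → (∀ c ∈ A, ∀ s ∈ S, c * s * c⁻¹ ∈ S) → S ≤ A) ∧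
    (Infinite A → (∀ g : G, g ∉ A → ∀ c ∈ A, c ≠ 1 → g * c * g⁻¹ ∉ A) → (∃ g : G, g ∉ A) →
      ¬ Group.IsSolvable G ∧
      ∀ S : Subgroup G, S.Normal → Group.IsSolvable S → S = ⊥) := by
  obtain ⟨x, hx⟩ := hconj
  obtain ⟨a, ha⟩ := (Subgroup.isCyclic_iff_exists_zpowers_eq_top A).1 hcyc
  have hA : ∀ g : G, g ∈ A ↔ ∃ n : ℤ, g = a ^ n := by
    intro g
    rw [← ha, Subgroup.mem_zpowers_iff]
    exact ⟨fun ⟨n, hn⟩ => ⟨n, hn.symm⟩, fun ⟨n, hn⟩ => ⟨n, hn.symm⟩⟩
  have haA : a ∈ A := (hA a).2 ⟨1, (zpow_one a).symm⟩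
  have hcov : Cov a x := by
    intro g
    obtain ⟨c, hc, d, hd, c', hc', rfl⟩ := hABA g
    obtain ⟨i, rfl⟩ := (hA c).1 hc
    obtain ⟨e, he, rfl⟩ := (hx d).1 hd
    obtain ⟨j, rfl⟩ := (hA e).1 he
    obtain ⟨k, rfl⟩ := (hA c').1 hc'
    exact ⟨i, j, k, rfl⟩
  have hpow : Infinite A → Inf a := by
    intro hinf n hn
    by_contra h0
    have hfin : IsOfFinOrder a := isOfFinOrder_iff_zpow_eq_one.2 ⟨n, h0, hn⟩
    have : Finite (Subgroup.zpowers a) := finite_zpowers.2 hfin
    rw [ha] at this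
    exact not_finite A
  -- a finite `A` gives a finite `G`
  have hfinG : ¬ Infinite A → Finite G := by
    intro h
    have hAf : Finite A := not_infinite_iff_finite.1 h
    refine Finite.of_surjective (fun t : A × A × A => (t.1 : G) * (x * t.2.1 * x⁻¹) * t.2.2) ?_
    intro g
    obtain ⟨c, hc, d, hd, c', hc', rfl⟩ := hABA g
    obtain ⟨e, he, rfl⟩ := (hx d).1 hd
    exact ⟨(⟨c, hc⟩, ⟨e, he⟩, ⟨c', hc'⟩), rfl⟩
  have hMalIff : (∀ g : G, g ∉ A → ∀ c ∈ A, c ≠ 1 → g * c * g⁻¹ ∉ A) → Infinite A → Maln a := by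
    intro h hinf g n m hn hg
    by_contra hk
    have hgA : g ∉ A := fun h1 => hk ((hA g).1 h1)
    refine h g hgA (a ^ n) ((hA _).2 ⟨n, rfl⟩) (fun h1 => hn (hpow hinf n h1)) ?_
    exact (hA _).2 ⟨m, hg⟩
  have h3 : Infinite A → (∀ g : G, g ∉ A → ∀ c ∈ A, c ≠ 1 → g * c * g⁻¹ ∉ A) →
      ∀ S : Subgroup G, Group.IsSolvable S → (∀ c ∈ A, ∀ s ∈ S, c * s * c⁻¹ ∈ S) → S ≤ A := by
    intro hinf hmal S hS hn s hs
    refine (hA s).2 (I_Main I_Norm I_Mod (I_Ring I_CharP (I_Upper I_NonInt I_Kron I_CBound) I_Count)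
      a x hcov (hpow hinf) (hMalIff hmal hinf) S hS (fun m hm => hn a haA m hm) ?_ s hs)
    intro m hm
    have := hn a⁻¹ (A.inv_mem haA) m hm
    rwa [inv_inv] at this
  have h4 : Infinite A → (∀ g : G, g ∉ A → ∀ c ∈ A, c ≠ 1 → g * c * g⁻¹ ∉ A) → (∃ g : G, g ∉ A) →
      ¬ Group.IsSolvable G ∧ ∀ S : Subgroup G, S.Normal → Group.IsSolvable S → S = ⊥ := by
    intro hinf hmal hne
    have h5 : ∀ S : Subgroup G, S.Normal → Group.IsSolvable S → S = ⊥ := by
      intro S hSn hS
      have hle := h3 hinf hmal S hS (fun c _ s hs => hSn.conj_mem s hs c)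
      rw [Subgroup.eq_bot_iff_forall]
      intro s hs
      by_contra hs1
      obtain ⟨g, hg⟩ := hne
      exact hmal g hg s (hle hs) hs1 (hle (hSn.conj_mem s hs g))
    refine ⟨fun hG => ?_, h5⟩
    have htop : (⊤ : Subgroup G) = ⊥ := by
      refine h5 ⊤ inferInstance ?_
      infer_instance
    obtain ⟨g, hg⟩ := hne
    have : g ∈ (⊥ : Subgroup G) := htop ▸ Subgroup.mem_top g
    rw [Subgroup.mem_bot] at this
    exact hg (this ▸ A.one_mem)
  refine ⟨?_, ?_, h3, h4⟩
  · intro hG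
    by_cases hinf : Infinite A
    · by_cases hmal : ∀ g : G, g ∉ A → ∀ c ∈ A, c ≠ 1 → g * c * g⁻¹ ∉ A
      · by_cases hne : ∃ g : G, g ∉ A
        · exact absurd hG (h4 hinf hmal hne).1
        · push Not at hne
          refine ⟨⊤, inferInstance, inferInstance, ?_⟩
          intro k _ l _
          obtain ⟨i, rfl⟩ := (hA k).1 (hne k)
          obtain ⟨j, rfl⟩ := (hA l).1 (hne l)
          rw [← zpow_add, ← zpow_add, add_comm]
      · -- `A` is not malnormal
        push Not at hmal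
        obtain ⟨g, hg, c, hc, hc1, hgc⟩ := hmal
        have hD : Aba a (x * a * x⁻¹) x := by
          refine ⟨rfl, fun g => ?_, hpow hinf⟩
          obtain ⟨i, j, k, h⟩ := hcov g
          exact ⟨i, j, k, by rw [h, conj_zpow]⟩
        obtain ⟨m, rfl⟩ := (hA c).1 hc
        obtain ⟨n, hn⟩ := (hA _).1 hgc
        have hm : m ≠ 0 := by
          rintro rfl
          exact hc1 (zpow_zero a)
        rw [← ha] at hg
        by_cases hAB : ∀ i j : ℤ, a ^ i = (x * a * x⁻¹) ^ j → i = 0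
        · obtain ⟨e, he, hce⟩ := hD.commuting hg hm hn
          obtain ⟨E, hE⟩ := hD.unif he hce
          have hI : Ind a (x * a * x⁻¹) x E := ⟨hE, hAB⟩
          exact ⟨_, hI.normal, hI.finiteIndex, hI.comm_K⟩
        · push Not at hAB
          obtain ⟨i, j, hij, hi⟩ := hAB
          exact ⟨Subgroup.center G, inferInstance, hD.centre_fin hij hi,
            fun k hk l _ => (Subgroup.mem_center_iff.1 hk l).symm⟩
    · have := hfinG hinf
      refine ⟨⊥, inferInstance, inferInstance, ?_⟩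
      intro k hk l hl
      rw [Subgroup.mem_bot] at hk hl
      rw [hk, hl]
  · intro N _ hN
    by_cases hinf : Infinite A
    · exact I_Quot I_Central I_Index a x hcov (hpow hinf) N hN
    · have := hfinG hinf
      have : Finite (G ⧸ N) := inferInstance
      exact ⟨inferInstance, inferInstance⟩

end Pool.Agent.Results.MP_302c96_al.SolubleStructure
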